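import Pool.Agent.Y816.PS.E

/-!
# Palindromes with prescribed outer digits and middle digit: level of distribution

The lemmas up to `VE_class` are those of `Pool.Agent.Y816.PS.H`, copied in order to import less.
-/

set_option autoImplicit false

namespace Pool.Agent.V11186.Pal

open Finset Filter Topology Pool.Agent.W89.PW Pool.Agent.W139.PX Pool.Agent.Y816.PS

lemma pal_div {b N L x : ℕ} (hb : 2 ≤ b) (h : L + 1 ≤ N) (hx : x < b ^ (2 * N + 1)) {a : ℕ → ℕ}
    (ha : ∀ i, a i < b) (hout : ∀ j, L < j → a j = x / b ^ (N + j) % b) :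
    pal b N a / b ^ (N + L + 1) = x / b ^ (N + L + 1) := by
  unfold pal
  rw [show 2 * N + 1 = (N + L + 1) + (N - L) by omega, sum_range_add]
  have h1 : ∀ j ∈ range (N - L), a (N - (N + L + 1 + j) + (N + L + 1 + j - N)) *
      b ^ (N + L + 1 + j) = b ^ (N + L + 1) * ((x / b ^ (N + L + 1) / b ^ j % b) * b ^ j) := by
    intro j _
    rw [show N - (N + L + 1 + j) + (N + L + 1 + j - N) = L + 1 + j by omega, hout _ (by omega),
      show N + (L + 1 + j) = N + L + 1 + j by ring, Nat.div_div_eq_div_mul, ← pow_add, pow_add b (N + L + 1) j]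
    ring
  rw [sum_congr rfl h1, ← mul_sum, sum_dig]
  have h2 : x / b ^ (N + L + 1) < b ^ (N - L) := by
    rw [Nat.div_lt_iff_lt_mul (by positivity), ← pow_add]
    rwa [show N - L + (N + L + 1) = 2 * N + 1 by omega]
  rw [Nat.mod_eq_of_lt h2]
  have h3 := sum_lt (b := b) (f := fun i => a ((N - i) + (i - N))) (fun i => ha _) (N + L + 1)
  rw [Nat.add_mul_div_left _ _ (by positivity), Nat.div_eq_of_lt h3, zero_add]

lemma pal_mid {b N : ℕ} (hb : 2 ≤ b) {a : ℕ → ℕ} (ha : ∀ i, a i < b) (h0 : a N ≠ 0) :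
    pal b N a / b ^ N % b = a 0 := by
  rw [← Nat.getD_digits _ _ hb, pal_digits hb ha h0, List.getD_eq_getElem _ _ (by simp; omega)]
  simp

/-- the digits of `VE` -/
def ae (b N L x e : ℕ) (m : Fin L → Fin b × Fin 1) (j : ℕ) : ℕ := if j = 0 then e else av b N L x m j

lemma ae_lt {b : ℕ} (hb : 2 ≤ b) (N L x : ℕ) {e : ℕ} (he : e < b) (m : Fin L → Fin b × Fin 1) (j : ℕ) :
    ae b N L x e m j < b := by
  unfold ae
  split_ifs
  · exact he
  · exact av_lt hb _ _ _ _ _

lemma ae_out {b N L x e : ℕ} (m : Fin L → Fin b × Fin 1) {j : ℕ} (hj : L < j) :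
    ae b N L x e m j = x / b ^ (N + j) % b := by
  unfold ae
  rw [if_neg (by omega), av_out m hj]

lemma ae_top {b N L x e : ℕ} (hb : 2 ≤ b) (h : L + 1 ≤ N) (hx : x < b ^ (2 * N + 1)) (h0 : b ^ (2 * N) ≤ x)
    (m : Fin L → Fin b × Fin 1) : ae b N L x e m N ≠ 0 := by
  rw [ae_out m (by omega), top_digit hb hx]
  have : 0 < x / b ^ (2 * N) := Nat.div_pos h0 (by positivity)
  omega

lemma VE_shift {b N L x : ℕ} (e : ℕ) (m : Fin L → Fin b × Fin 1) :
    VE b N L x 0 m + e * b ^ N = VE b N L x e m := by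
  have h1 := VE_add b N L x e m
  have h2 := VE_add b N L x 0 m
  omega

lemma VE_inj {b N L x e : ℕ} (hb : 2 ≤ b) (hN : L + 1 ≤ N) : Function.Injective (VE b N L x e) := by
  intro m m' hm
  rw [VE_eq x e hN, VE_eq x e hN] at hm
  have h6 : sg b L m = sg b L m' :=
    Nat.eq_of_mul_eq_mul_left (by positivity) (Nat.add_left_cancel hm)
  apply pv_inj_unif hb
  rw [pv_sg, pv_sg, h6]

lemma VE_class {b N L x : ℕ} (e : ℕ) (hb : 2 ≤ b) (hN : L + 1 ≤ N) (q h : ℕ) (hq : q.Coprime (2 * b)) :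
    |((((univ : Finset (Fin L → Fin b × Fin 1)).image (VE b N L x e)).filter
      (fun n => n % q = h % q)).card : ℝ) - (b : ℝ) ^ L / q| ≤ er b L q := by
  have hq0 : 0 < q := Nat.pos_of_ne_zero (by
    rintro rfl
    rw [Nat.coprime_zero_left] at hq
    omega)
  obtain ⟨r, hr⟩ := aff_dvd (N := N) (L := L) (n0 b N L x - b ^ N + e * b ^ N + h * (q - 1)) hq hq0
  have h1 := cnth_bound (s := b) (t := 1) (by omega) one_pos b L q r hq
  have h2 : ((b : ℝ) * (1 : ℕ)) ^ L = (b : ℝ) ^ L := by simp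
  rw [h2] at h1
  rw [filter_image, card_image_of_injective _ (VE_inj hb hN)]
  have h3 : (univ : Finset (Fin L → Fin b × Fin 1)).filter (fun m => VE b N L x e m % q = h % q) =
      univ.filter (fun m => pv b b 1 L m ≡ r [MOD q]) := by
    apply filter_congr
    intro m _
    rw [← hr m]
    have e1 : n0 b N L x - b ^ N + e * b ^ N + h * (q - 1) + b ^ (N - L - 1) * sg b L m =
        VE b N L x e m + h * (q - 1) := by
      rw [VE_eq x e hN]
      ring
    rw [e1]
    generalize VE b N L x e m = V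
    obtain ⟨k, rfl⟩ : ∃ k, q = k + 1 := ⟨q - 1, by omega⟩
    rw [Nat.add_sub_cancel]
    have e2 : h + h * k ≡ 0 [MOD k + 1] := Nat.modEq_zero_iff_dvd.2 ⟨h, by ring⟩
    constructor
    · intro h4
      have h5 : V + h * k ≡ h + h * k [MOD k + 1] := Nat.ModEq.add_right _ h4
      exact Nat.modEq_zero_iff_dvd.1 (h5.trans e2)
    · intro h4
      have h5 : V + h * k ≡ h + h * k [MOD k + 1] := (Nat.modEq_zero_iff_dvd.2 h4).trans e2.symm
      exact Nat.ModEq.add_right_cancel' _ h5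
  rw [h3]
  exact h1

/-- the base-`b` palindromes with `2 N + 1` digits whose `N - L` leading digits are those of `x` and
whose middle digit is `e` -/
def pals (b N L x e : ℕ) : Finset ℕ :=
  (range (b ^ (2 * N + 1))).filter (fun n => (Nat.digits b n).reverse = Nat.digits b n ∧
    n / b ^ (N + L + 1) = x / b ^ (N + L + 1) ∧ n / b ^ N % b = e)

lemma ge_of_prefix {b N L x n : ℕ} (hb : 2 ≤ b) (hN : L + 1 ≤ N) (h0 : b ^ (2 * N) ≤ x)
    (hd : n / b ^ (N + L + 1) = x / b ^ (N + L + 1)) : b ^ (2 * N) ≤ n := by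
  have hpow : b ^ (2 * N) = b ^ (N + L + 1) * b ^ (N - L - 1) := by
    rw [← pow_add]
    congr 1
    omega
  calc b ^ (2 * N) = b ^ (N + L + 1) * b ^ (N - L - 1) := hpow
    _ ≤ b ^ (N + L + 1) * (x / b ^ (N + L + 1)) :=
        Nat.mul_le_mul_left _ ((Nat.le_div_iff_mul_le (by positivity)).2 (by
          rw [mul_comm, ← hpow]
          exact h0))
    _ = b ^ (N + L + 1) * (n / b ^ (N + L + 1)) := by rw [hd]
    _ ≤ n := Nat.mul_div_le _ _

lemma pals_eq {b N L x e : ℕ} (hb : 2 ≤ b) (hN : L + 1 ≤ N) (h0 : b ^ (2 * N) ≤ x)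
    (hx : x < b ^ (2 * N + 1)) (he : e < b) :
    pals b N L x e = (univ : Finset (Fin L → Fin b × Fin 1)).image (VE b N L x e) := by
  classical
  ext n
  unfold pals
  rw [mem_filter, mem_range, mem_image]
  constructor
  · rintro ⟨h2, hp, hd, hm⟩
    have h1 : b ^ (2 * N) ≤ n := ge_of_prefix hb hN h0 hd
    have h3 := VE_surj hb h1 h2 hp hd
    rw [hm] at h3
    exact ⟨_, mem_univ _, h3.symm⟩
  · rintro ⟨m, -, rfl⟩
    have ha := ae_lt hb N L x he m
    have htop := ae_top (e := e) hb hN hx h0 m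
    have hVE : VE b N L x e m = pal b N (ae b N L x e m) := rfl
    rw [hVE]
    refine ⟨?_, pal_reverse hb ha htop, pal_div hb hN hx ha (fun j hj => ae_out m hj), ?_⟩
    · unfold pal
      exact sum_lt (fun i => ha _) _
    · rw [pal_mid hb ha htop]
      simp [ae]

lemma card_pals {b N L x e : ℕ} (hb : 2 ≤ b) (hN : L + 1 ≤ N) (h0 : b ^ (2 * N) ≤ x)
    (hx : x < b ^ (2 * N + 1)) (he : e < b) : (pals b N L x e).card = b ^ L := by
  rw [pals_eq hb hN h0 hx he, card_image_of_injective _ (VE_inj hb hN)]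
  simp

lemma class_pals {b N L x e : ℕ} (hb : 2 ≤ b) (hN : L + 1 ≤ N) (h0 : b ^ (2 * N) ≤ x)
    (hx : x < b ^ (2 * N + 1)) (he : e < b) (q h : ℕ) (hq : q.Coprime (2 * b)) :
    |(((pals b N L x e).filter (fun n => n ≡ h [MOD q])).card : ℝ) - (b : ℝ) ^ L / q| ≤ er b L q := by
  rw [pals_eq hb hN h0 hx he]
  exact VE_class e hb hN q h hq

end Pool.Agent.V11186.Pal
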