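import Pool.Agent.V11186.Pal.Level

/-!
# Turan's inequality for palindromes with prescribed outer digits
-/

set_option autoImplicit false

namespace Pool.Agent.V11186.Pal

open Finset Filter Pool.Agent.Y816.PS

/-- the primes `p ≤ z` that do not divide `2 b` -/
def smallPrimes (b z : ℕ) : Finset ℕ := (Icc 1 z).filter (fun p => p.Prime ∧ p.Coprime (2 * b))

/-- the number of the primes `p ≤ z`, `p ∤ 2 b`, that divide `n` -/
def omega (b z n : ℕ) : ℕ := ((smallPrimes b z).filter (fun p => p ∣ n)).card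

/-- the sum of `1 / p` over the primes `p ≤ z`, `p ∤ 2 b` -/
noncomputable def mean (b z : ℕ) : ℝ := ∑ p ∈ smallPrimes b z, 1 / (p : ℝ)

lemma mean_nonneg (b z : ℕ) : 0 ≤ mean b z := sum_nonneg fun p _ => by positivity

lemma mean_le (b z : ℕ) (_hz : 1 ≤ z) : mean b z ≤ 1 + Real.log z := by
  have h1 : mean b z ≤ ∑ m ∈ Icc 1 z, 1 / (m : ℝ) := by
    unfold mean smallPrimes
    exact sum_le_sum_of_subset_of_nonneg (filter_subset _ _) fun m _ _ => by positivity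
  refine h1.trans ?_
  have h2 := harmonic_le_one_add_log z
  rw [harmonic_eq_sum_Icc] at h2
  push_cast at h2
  simpa [one_div] using h2

lemma pair_sum (P Ds : Finset ℕ) (f : ℕ → ℝ) (hf : ∀ d, 0 ≤ f d) (hP : ∀ p ∈ P, 0 < p)
    (hDs : ∀ d ∈ Ds, 0 < d) (hmap : ∀ p ∈ P, ∀ q ∈ P, p ≠ q → p * q ∈ Ds) :
    ∑ t ∈ (P ×ˢ P).filter (fun t => t.1 ≠ t.2), f (t.1 * t.2) ≤
      ∑ d ∈ Ds, (d.divisors.card : ℝ) ^ 2 * f d := by
  classical
  rw [← Finset.sum_fiberwise_of_maps_to (g := fun t : ℕ × ℕ => t.1 * t.2) (t := Ds) (by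
    intro t ht
    rw [mem_filter, mem_product] at ht
    exact hmap _ ht.1.1 _ ht.1.2 ht.2)]
  refine sum_le_sum fun d hd => ?_
  have h1 : ∑ t ∈ ((P ×ˢ P).filter (fun t => t.1 ≠ t.2)).filter (fun t => t.1 * t.2 = d),
      f (t.1 * t.2) =
      ((((P ×ˢ P).filter (fun t => t.1 ≠ t.2)).filter (fun t => t.1 * t.2 = d)).card : ℝ) * f d := by
    rw [sum_congr rfl (fun t ht => by rw [(mem_filter.1 ht).2]), sum_const, nsmul_eq_mul]
  rw [h1]
  refine mul_le_mul_of_nonneg_right ?_ (hf d)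
  have h2 : (((P ×ˢ P).filter (fun t => t.1 ≠ t.2)).filter (fun t => t.1 * t.2 = d)).card ≤
      d.divisors.card := by
    apply Finset.card_le_card_of_injOn (fun t => t.1)
    · intro t ht
      rw [mem_coe, mem_filter] at ht
      rw [mem_coe, Nat.mem_divisors]
      exact ⟨⟨t.2, ht.2.symm⟩, (hDs d hd).ne'⟩
    · intro t ht s hs h
      rw [mem_coe, mem_filter, mem_filter, mem_product] at ht hs
      have h3 : t.1 = s.1 := h
      have h4 : t.1 * t.2 = s.1 * s.2 := ht.2.trans hs.2.symm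
      rw [← h3] at h4
      have h5 := Nat.eq_of_mul_eq_mul_left (hP _ ht.1.1.1) h4
      exact Prod.ext h3 h5
  have h3 : d.divisors.card ≤ d.divisors.card ^ 2 := Nat.le_self_pow (by norm_num) _
  exact_mod_cast h2.trans h3

/-- **Turan's inequality for palindromes.** -/
theorem turan (b : ℕ) (hb : 2 ≤ b) : ∀ᶠ L : ℕ in atTop, ∀ N x e z : ℕ, L < N →
    b ^ (2 * N) ≤ x → x < b ^ (2 * N + 1) → e < b → 1 ≤ z →
    (z : ℝ) ^ 2 ≤ (b : ℝ) ^ ((49 / 100 : ℝ) * L) →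
    ∑ n ∈ pals b N L x e, ((omega b z n : ℝ) - mean b z) ^ 2 ≤ (b : ℝ) ^ L * (mean b z + 1) := by
  classical
  filter_upwards [er_final hb 2, eventually_ge_atTop (⌈2 * Real.log b + 2⌉₊)] with L hL hL2
  intro N x e z hN h0 hx he hz1 hz
  have hbR : (2 : ℝ) ≤ b := by exact_mod_cast hb
  have hb0 : (0 : ℝ) < b := by linarith
  have hb1 : (1 : ℝ) ≤ b := by linarith
  have hlb : 0 < Real.log b := Real.log_pos (by linarith)
  have hLR : 2 * Real.log b + 2 ≤ (L : ℝ) := (Nat.le_ceil _).trans (by exact_mod_cast hL2)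
  obtain ⟨S, hS⟩ : ∃ S, S = pals b N L x e := ⟨_, rfl⟩
  obtain ⟨P, hP⟩ : ∃ P, P = smallPrimes b z := ⟨_, rfl⟩
  obtain ⟨X, hX⟩ : ∃ X : ℝ, X = (b : ℝ) ^ L := ⟨_, rfl⟩
  obtain ⟨M, hM⟩ : ∃ M : ℝ, M = mean b z := ⟨_, rfl⟩
  obtain ⟨Ds, hDs⟩ : ∃ Ds, Ds = (Icc 1 ⌊(b : ℝ) ^ ((49 / 100 : ℝ) * L)⌋₊).filter
    (fun q => q.Coprime (2 * b)) := ⟨_, rfl⟩
  obtain ⟨E, hE⟩ : ∃ E : ℝ, E = ∑ q ∈ Ds, (q.divisors.card : ℝ) ^ 2 * er b L q := ⟨_, rfl⟩
  have hX0 : 0 < X := by rw [hX]; positivity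
  have hcard : ((S.card : ℕ) : ℝ) = X := by
    rw [hS, card_pals hb hN h0 hx he, hX]
    push_cast
    rfl
  have hMsum : M = ∑ p ∈ P, 1 / (p : ℝ) := by rw [hM, hP]; rfl
  have hM0 : 0 ≤ M := by rw [hM]; exact mean_nonneg b z
  have hEX : E ≤ X / (L : ℝ) ^ 2 := by rw [hE, hDs, hX]; exact hL
  have hE0 : 0 ≤ E := by
    rw [hE]
    exact sum_nonneg fun q _ => mul_nonneg (by positivity) (er_nonneg b L q)
  have hPp : ∀ p ∈ P, p.Prime ∧ p.Coprime (2 * b) ∧ p ≤ z := by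
    intro p hp
    rw [hP, smallPrimes, mem_filter, mem_Icc] at hp
    exact ⟨hp.2.1, hp.2.2, hp.1.2⟩
  have hfl : z ^ 2 ≤ ⌊(b : ℝ) ^ ((49 / 100 : ℝ) * L)⌋₊ := Nat.le_floor (by exact_mod_cast hz)
  have hPD : ∀ p ∈ P, p ∈ Ds := by
    intro p hp
    obtain ⟨h1, h2, h3⟩ := hPp p hp
    rw [hDs, mem_filter, mem_Icc]
    refine ⟨⟨h1.one_lt.le, le_trans ?_ hfl⟩, h2⟩
    exact h3.trans (Nat.le_self_pow (by norm_num) z)
  have hPPD : ∀ p ∈ P, ∀ q ∈ P, p ≠ q → p * q ∈ Ds := by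
    intro p hp q hq _
    obtain ⟨h1, h2, h3⟩ := hPp p hp
    obtain ⟨g1, g2, g3⟩ := hPp q hq
    rw [hDs, mem_filter, mem_Icc]
    refine ⟨⟨Nat.mul_pos h1.pos g1.pos, le_trans ?_ hfl⟩, Nat.Coprime.mul_left h2 g2⟩
    rw [pow_two]
    exact Nat.mul_le_mul h3 g3
  have hDpos : ∀ d ∈ Ds, 0 < d := by
    intro d hd
    rw [hDs, mem_filter, mem_Icc] at hd
    omega
  -- the remainders
  obtain ⟨A, hA⟩ : ∃ A : ℕ → ℝ, A = fun d => ((S.filter (fun n => d ∣ n)).card : ℝ) := ⟨_, rfl⟩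
  obtain ⟨r, hrdef⟩ : ∃ r : ℕ → ℝ, r = fun d => A d - X / d := ⟨_, rfl⟩
  have hr : ∀ d, d.Coprime (2 * b) → |r d| ≤ er b L d := by
    intro d hd
    have h1 := class_pals hb hN h0 hx he d 0 hd
    simp only [Nat.modEq_zero_iff_dvd] at h1
    rw [hrdef, hA, hX, hS]
    exact h1
  have hAr : ∀ d, A d = X / d + r d := by
    intro d
    rw [hrdef]
    ring
  -- expansion of the square
  obtain ⟨δ, hδ⟩ : ∃ δ : ℕ → ℕ → ℝ, δ = fun p n => if p ∣ n then 1 else 0 := ⟨_, rfl⟩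
  have hAδ : ∀ d, ∑ n ∈ S, δ d n = A d := by
    intro d
    rw [hA, hδ]
    simp
  have hom : ∀ n, (omega b z n : ℝ) - mean b z = ∑ p ∈ P, (δ p n - 1 / (p : ℝ)) := by
    intro n
    rw [sum_sub_distrib, ← hMsum, ← hM, hδ]
    congr 1
    unfold omega
    rw [← hP]
    simp
  have hV : ∀ p ∈ P, ∀ q ∈ P, ∑ n ∈ S, (δ p n - 1 / (p : ℝ)) * (δ q n - 1 / (q : ℝ)) ≤
      (if p = q then X / p + er b L p else er b L (p * q)) + er b L p * (1 / (q : ℝ)) +
        er b L q * (1 / (p : ℝ)) := by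
    intro p hp q hq
    obtain ⟨h1, h2, h3⟩ := hPp p hp
    obtain ⟨g1, g2, g3⟩ := hPp q hq
    have hp0 : (0 : ℝ) < p := by exact_mod_cast h1.pos
    have hq0 : (0 : ℝ) < q := by exact_mod_cast g1.pos
    have hp2 : (2 : ℝ) ≤ p := by exact_mod_cast h1.two_le
    have hpi : 1 / (p : ℝ) ≤ 1 / 2 := one_div_le_one_div_of_le (by norm_num) hp2
    have hpi0 : 0 < 1 / (p : ℝ) := by positivity
    have hqi0 : 0 < 1 / (q : ℝ) := by positivity
    have e0 : ∑ n ∈ S, (δ p n - 1 / (p : ℝ)) * (δ q n - 1 / (q : ℝ)) =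
        ∑ n ∈ S, δ p n * δ q n - A p * (1 / (q : ℝ)) - A q * (1 / (p : ℝ)) +
          X * (1 / (p : ℝ)) * (1 / (q : ℝ)) := by
      rw [← hAδ p, ← hAδ q, ← hcard, sum_mul, sum_mul, ← sum_sub_distrib, ← sum_sub_distrib]
      have e1 : ((S.card : ℕ) : ℝ) * (1 / (p : ℝ)) * (1 / (q : ℝ)) =
          ∑ _n ∈ S, (1 / (p : ℝ)) * (1 / (q : ℝ)) := by
        rw [sum_const, nsmul_eq_mul]
        ring
      rw [e1, ← sum_add_distrib]
      refine sum_congr rfl fun n _ => ?_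
      ring
    have hrp := hr p h2
    have hrq := hr q g2
    rw [abs_le] at hrp hrq
    have hep := er_nonneg b L p
    have heq := er_nonneg b L q
    rw [e0]
    by_cases hpq : p = q
    · subst hpq
      rw [if_pos rfl]
      have e2 : ∑ n ∈ S, δ p n * δ p n = A p := by
        rw [← hAδ p]
        refine sum_congr rfl fun n _ => ?_
        rw [hδ]
        by_cases h : p ∣ n <;> simp [h]
      rw [e2, hAr p]
      have e3 : X / (p : ℝ) = X * (1 / (p : ℝ)) := by ring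
      rw [e3]
      generalize 1 / (p : ℝ) = u at hpi hpi0
      nlinarith [mul_nonneg hX0.le (mul_nonneg hpi0.le hpi0.le), mul_nonneg hep hpi0.le,
        mul_nonneg (sub_nonneg.2 hrp.2) (sub_nonneg.2 hpi),
        mul_nonneg (sub_nonneg.2 hrp.2) hpi0.le]
    · rw [if_neg hpq]
      have hcop : Nat.Coprime p q := (Nat.coprime_primes h1 g1).2 hpq
      have e2 : ∑ n ∈ S, δ p n * δ q n = A (p * q) := by
        rw [← hAδ (p * q)]
        refine sum_congr rfl fun n _ => ?_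
        rw [hδ]
        have h4 : p * q ∣ n ↔ p ∣ n ∧ q ∣ n :=
          ⟨fun h => ⟨(dvd_mul_right p q).trans h, (dvd_mul_left q p).trans h⟩,
            fun h => hcop.mul_dvd_of_dvd_of_dvd h.1 h.2⟩
        change (if p ∣ n then (1 : ℝ) else 0) * (if q ∣ n then 1 else 0) = if p * q ∣ n then 1 else 0
        by_cases h5 : p ∣ n
        · by_cases h6 : q ∣ n
          · rw [if_pos h5, if_pos h6, if_pos (h4.2 ⟨h5, h6⟩), mul_one]
          · rw [if_neg h6, if_neg (fun h => h6 (h4.1 h).2), mul_zero]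
        · rw [if_neg h5, if_neg (fun h => h5 (h4.1 h).1), zero_mul]
      have hrpq := hr (p * q) (Nat.Coprime.mul_left h2 g2)
      rw [abs_le] at hrpq
      rw [e2, hAr (p * q), hAr p, hAr q]
      have e3 : X / ((p * q : ℕ) : ℝ) = X * (1 / (p : ℝ)) * (1 / (q : ℝ)) := by
        push_cast
        field_simp
      have e4 : X / (p : ℝ) = X * (1 / (p : ℝ)) := by ring
      have e5 : X / (q : ℝ) = X * (1 / (q : ℝ)) := by ring
      rw [e3, e4, e5]
      have e6 : 0 ≤ (er b L p + r p) * (1 / (q : ℝ)) := mul_nonneg (by linarith) hqi0.le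
      have e7 : 0 ≤ (er b L q + r q) * (1 / (p : ℝ)) := mul_nonneg (by linarith) hpi0.le
      nlinarith
  -- summation
  have hsq : ∑ n ∈ S, ((omega b z n : ℝ) - mean b z) ^ 2 =
      ∑ p ∈ P, ∑ q ∈ P, ∑ n ∈ S, (δ p n - 1 / (p : ℝ)) * (δ q n - 1 / (q : ℝ)) := by
    have e1 : ∀ n ∈ S, ((omega b z n : ℝ) - mean b z) ^ 2 =
        ∑ p ∈ P, ∑ q ∈ P, (δ p n - 1 / (p : ℝ)) * (δ q n - 1 / (q : ℝ)) := by
      intro n _
      rw [hom n, pow_two, sum_mul_sum]
    rw [sum_congr rfl e1, sum_comm]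
    refine sum_congr rfl fun p _ => ?_
    rw [sum_comm]
  rw [← hS, hsq]
  refine (sum_le_sum fun p hp => sum_le_sum fun q hq => hV p hp q hq).trans ?_
  have hsP : ∑ p ∈ P, er b L p ≤ E := by
    rw [hE]
    refine le_trans ?_ (sum_le_sum_of_subset_of_nonneg (s := P) (fun p hp => hPD p hp)
      fun q _ _ => mul_nonneg (sq_nonneg _) (er_nonneg b L q))
    refine sum_le_sum fun p hp => ?_
    have h1 : (1 : ℝ) ≤ (p.divisors.card : ℝ) ^ 2 := by
      have h2 : 1 ≤ p.divisors.card := Finset.card_pos.2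
        ⟨1, Nat.one_mem_divisors.2 (hPp p hp).1.ne_zero⟩
      exact_mod_cast Nat.one_le_pow _ _ h2
    nlinarith [er_nonneg b L p]
  have hs1 : ∑ p ∈ P, ∑ q ∈ P, (if p = q then X / p + er b L p else er b L (p * q)) ≤
      X * M + E + E := by
    have e1 : ∀ p ∈ P, ∀ q ∈ P, (if p = q then X / p + er b L p else er b L (p * q)) =
        (if p = q then X / p + er b L p else 0) + (if p ≠ q then er b L (p * q) else 0) := by
      intro p _ q _
      by_cases h : p = q <;> simp [h]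
    rw [sum_congr rfl fun p hp => sum_congr rfl fun q hq => e1 p hp q hq]
    simp only [sum_add_distrib]
    have e2 : ∑ p ∈ P, ∑ q ∈ P, (if p = q then X / p + er b L p else 0) =
        X * M + ∑ p ∈ P, er b L p := by
      have e3 : ∀ p ∈ P, ∑ q ∈ P, (if p = q then X / p + er b L p else 0) = X / p + er b L p := by
        intro p hp
        rw [sum_ite_eq, if_pos hp]
      rw [sum_congr rfl e3, sum_add_distrib, hMsum, mul_sum]
      congr 1
      refine sum_congr rfl fun p _ => ?_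
      ring
    have e4 : ∑ p ∈ P, ∑ q ∈ P, (if p ≠ q then er b L (p * q) else 0) ≤ E := by
      rw [← sum_product', ← sum_filter, hE]
      exact pair_sum P Ds (er b L) (er_nonneg b L) (fun p hp => (hPp p hp).1.pos) hDpos hPPD
    rw [e2]
    linarith
  have hs2 : ∑ p ∈ P, ∑ q ∈ P, er b L p * (1 / (q : ℝ)) ≤ E * M := by
    rw [← sum_mul_sum, ← hMsum]
    exact mul_le_mul_of_nonneg_right hsP hM0
  have hs3 : ∑ p ∈ P, ∑ q ∈ P, er b L q * (1 / (p : ℝ)) ≤ E * M := by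
    rw [sum_comm, ← sum_mul_sum, ← hMsum]
    exact mul_le_mul_of_nonneg_right hsP hM0
  have htot : ∑ p ∈ P, ∑ q ∈ P, ((if p = q then X / p + er b L p else er b L (p * q)) +
      er b L p * (1 / (q : ℝ)) + er b L q * (1 / (p : ℝ))) ≤ X * M + (2 + 2 * M) * E := by
    simp only [sum_add_distrib] at hs1 ⊢
    linarith
  refine htot.trans ?_
  -- the bound for `M`
  have hzb : (z : ℝ) ≤ (b : ℝ) ^ ((L : ℕ) : ℝ) := by
    have hz1R : (1 : ℝ) ≤ z := by exact_mod_cast hz1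
    have h1 : (z : ℝ) ≤ (z : ℝ) ^ 2 := by nlinarith
    refine h1.trans (hz.trans (Real.rpow_le_rpow_of_exponent_le hb1 ?_))
    have : (0 : ℝ) ≤ L := Nat.cast_nonneg L
    linarith
  have hz0 : (0 : ℝ) < z := by exact_mod_cast hz1
  have hlz : Real.log z ≤ L * Real.log b := by
    have h1 := Real.log_le_log hz0 hzb
    rwa [Real.log_rpow hb0] at h1
  have hMle : M ≤ 1 + L * Real.log b := by
    rw [hM]
    exact (mean_le b z hz1).trans (by linarith)
  have hLM : 2 + 2 * M ≤ (L : ℝ) ^ 2 := by nlinarith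
  have hL0 : (0 : ℝ) < (L : ℝ) ^ 2 := by
    have : (0 : ℝ) < L := by linarith
    positivity
  have hfin : (2 + 2 * M) * E ≤ X := by
    calc (2 + 2 * M) * E ≤ (L : ℝ) ^ 2 * E := mul_le_mul_of_nonneg_right hLM hE0
      _ ≤ (L : ℝ) ^ 2 * (X / (L : ℝ) ^ 2) := mul_le_mul_of_nonneg_left hEX hL0.le
      _ = X := by rw [mul_div_assoc', mul_comm, mul_div_assoc, div_self hL0.ne', mul_one]
  rw [← hX, ← hM]
  linarith

end Pool.Agent.V11186.Pal
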